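import Pool.Agent.L7h83.HO.Stm

set_option autoImplicit false

open MvPolynomial Topology Filter

namespace Pool.Agent.L7h37.HO

open Pool.Agent.L7h83.HO

theorem s_INF : INF := by
  intro p hp K hK hcone u hu hre hw
  have hc8 : p.coeff 8 ≠ 0 := by
    have h0 : p ≠ 0 := by
      rintro rfl
      simp at hp
    have h1 : p.leadingCoeff ≠ 0 := Polynomial.leadingCoeff_ne_zero.mpr h0
    rwa [Polynomial.leadingCoeff, hp] at h1
  have hu0 : u ≠ 0 := by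
    rintro rfl
    simp at hu
  have hσ : (p.coeff 8 * u ^ 8).im ≠ 0 := by
    intro h
    have h2 : p.coeff 8 * u ^ 8 = 0 := Complex.ext (by simpa using hre) (by simpa using h)
    exact (mul_ne_zero hc8 (pow_ne_zero 8 hu0)) h2
  refine ⟨(p.coeff 8 * u ^ 8).im, hσ, ?_⟩
  set σ : ℝ := (p.coeff 8 * u ^ 8).im with hσdef
  by_contra hcon
  push Not at hcon
  obtain ⟨B, hB⟩ := hcon
  choose z hz1 hz2 hz3 using fun n : ℕ => hB n
  have hzpos : ∀ n, 0 < ‖z n‖ := fun n => lt_of_le_of_lt (Nat.cast_nonneg n) (hz1 n)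
  have hs0 : Tendsto (fun n => (‖z n‖)⁻¹) atTop (𝓝 0) := by
    apply Filter.Tendsto.comp tendsto_inv_atTop_zero
    exact tendsto_atTop_mono (fun n => (hz1 n).le) tendsto_natCast_atTop_atTop
  have hd : ∀ n, z n * ((‖z n‖)⁻¹ : ℝ) ∈ Metric.sphere (0:ℂ) 1 := by
    intro n
    rw [mem_sphere_zero_iff_norm, norm_mul, Complex.norm_real, norm_inv, norm_norm,
      mul_inv_cancel₀ (hzpos n).ne']
  obtain ⟨w, hw1, φ, hφ, hlim⟩ := (isCompact_sphere (0:ℂ) 1).tendsto_subseq hd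
  have hwn : ‖w‖ = 1 := by simpa using hw1
  have hs : Tendsto (fun n => (‖z (φ n)‖)⁻¹) atTop (𝓝 0) := hs0.comp hφ.tendsto_atTop
  have hlim' : Tendsto (fun n => z (φ n) * (((‖z (φ n)‖)⁻¹ : ℝ) : ℂ)) atTop (𝓝 w) := hlim
  have hK2 : ∀ n, ![(z (φ n) * (((‖z (φ n)‖)⁻¹ : ℝ) : ℂ)).re,
      (z (φ n) * (((‖z (φ n)‖)⁻¹ : ℝ) : ℂ)).im, (‖z (φ n)‖)⁻¹] ∈ K := by
    intro n
    have h1 := hcone _ (hz2 (φ n)) (by
      intro h
      have := congrFun h 2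
      simp at this) ((‖z (φ n)‖)⁻¹) (inv_ne_zero (hzpos _).ne')
    convert h1 using 1
    funext i
    fin_cases i
    · simp [mul_comm]
    · simp [mul_comm]
    · simp
  have hwK : ![w.re, w.im, 0] ∈ K := by
    refine hK.mem_of_tendsto (b := atTop) (f := fun n => ![(z (φ n) * (((‖z (φ n)‖)⁻¹ : ℝ) : ℂ)).re,
      (z (φ n) * (((‖z (φ n)‖)⁻¹ : ℝ) : ℂ)).im, (‖z (φ n)‖)⁻¹]) ?_ (Eventually.of_forall hK2)
    rw [tendsto_pi_nhds]
    intro i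
    fin_cases i
    · exact (Complex.continuous_re.tendsto w).comp hlim'
    · exact (Complex.continuous_im.tendsto w).comp hlim'
    · exact hs
  have hw8 : w ^ 8 = u ^ 8 := by
    rcases hw w hwn hwK with h | h
    · rw [h]
    · rw [h]; ring
  have hg : Continuous (fun q : ℂ × ℝ =>
      ∑ j ∈ Finset.range 9, p.coeff j * q.1 ^ j * (q.2 : ℂ) ^ (8 - j)) := by
    fun_prop
  have hpair : Tendsto (fun n => ((z (φ n) * (((‖z (φ n)‖)⁻¹ : ℝ) : ℂ)), (‖z (φ n)‖)⁻¹)) atTop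
      (𝓝 (w, (0:ℝ))) := hlim'.prodMk_nhds hs
  have hG := (hg.tendsto (w, (0:ℝ))).comp hpair
  have hval : (∑ j ∈ Finset.range 9, p.coeff j * w ^ j * (((0:ℝ) : ℂ)) ^ (8 - j)) =
      p.coeff 8 * w ^ 8 := by
    simp [Finset.sum_range_succ]
  have hev : ∀ n, (∑ j ∈ Finset.range 9, p.coeff j *
      (z (φ n) * (((‖z (φ n)‖)⁻¹ : ℝ) : ℂ)) ^ j * (((‖z (φ n)‖)⁻¹ : ℝ) : ℂ) ^ (8 - j)) =
      p.eval (z (φ n)) * (((‖z (φ n)‖)⁻¹ : ℝ) : ℂ) ^ 8 := by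
    intro n
    rw [Polynomial.eval_eq_sum_range, hp, Finset.sum_mul]
    refine Finset.sum_congr rfl fun j hj => ?_
    have hj8 : j ≤ 8 := by
      have := Finset.mem_range.mp hj
      omega
    rw [mul_pow]
    have : (((‖z (φ n)‖)⁻¹ : ℝ) : ℂ) ^ 8 =
        (((‖z (φ n)‖)⁻¹ : ℝ) : ℂ) ^ j * (((‖z (φ n)‖)⁻¹ : ℝ) : ℂ) ^ (8 - j) := by
      rw [← pow_add]
      congr 1
      omega
    rw [this]
    ring
  have hG2 : Tendsto (fun n => σ * (p.eval (z (φ n)) * (((‖z (φ n)‖)⁻¹ : ℝ) : ℂ) ^ 8).im) atTop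
      (𝓝 (σ * σ)) := by
    have h1 : Tendsto (fun n => σ * (p.eval (z (φ n)) * (((‖z (φ n)‖)⁻¹ : ℝ) : ℂ) ^ 8).im) atTop
        (𝓝 (σ * (∑ j ∈ Finset.range 9, p.coeff j * w ^ j * (((0:ℝ) : ℂ)) ^ (8 - j)).im)) := by
      have h2 := ((Complex.continuous_im.tendsto _).comp hG).const_mul σ
      refine h2.congr fun n => ?_
      simp only [Function.comp]
      rw [hev n]
    rwa [hval, hw8, ← hσdef] at h1
  have hup : Tendsto (fun n => B * ((‖z (φ n)‖)⁻¹) ^ 8) atTop (𝓝 0) := by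
    have := (hs.pow 8).const_mul B
    simpa using this
  have hle : σ * σ ≤ 0 := by
    refine le_of_tendsto_of_tendsto' hG2 hup fun n => ?_
    have h1 : (p.eval (z (φ n)) * (((‖z (φ n)‖)⁻¹ : ℝ) : ℂ) ^ 8).im =
        (p.eval (z (φ n))).im * ((‖z (φ n)‖)⁻¹) ^ 8 := by
      rw [← Complex.ofReal_pow, Complex.im_mul_ofReal]
    rw [h1, ← mul_assoc]
    exact mul_le_mul_of_nonneg_right (hz3 (φ n)) (by positivity)
  have : 0 < σ * σ := mul_self_pos.mpr hσ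
  linarith

end Pool.Agent.L7h37.HO
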